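import Pool.Agent.R141.SD.Hit

/-!
# MP_77e9aa_lc: the case `p ≥ 3`
-/

set_option autoImplicit false

namespace Pool.Agent.R141.SD

open Pool.Agent.NPC Pool.Agent.R544 Pool.Agent.R539.SD

/-- arcs between the hubs -/
def hubhub (K : ℕ) : Dg :=
  (List.range K).flatMap fun h => (List.range h).flatMap fun h' =>
    [((2, h, 0), (2, h', 0)), ((2, h', 0), (2, h, 0))]

/-- the vertices of a clause -/
def ver (j a b c : ℕ) : List Vx := [(0, a, 0), (0, b, 0), (0, c, 0), (1, j, 0), (1, j, 1), (1, j, 2)]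

/-- arcs between the hub `h` and the clause -/
def hubD (h j a b c : ℕ) : Dg := (ver j a b c).flatMap fun v => [((2, h, 0), v), (v, (2, h, 0))]

/-- arcs inside a clause -/
def tri (j a b c : ℕ) : Dg :=
  [((0, a, 0), (1, j, 0)), ((1, j, 0), (0, a, 0)), ((0, b, 0), (1, j, 1)), ((1, j, 1), (0, b, 0)),
    ((0, c, 0), (1, j, 2)), ((1, j, 2), (0, c, 0)), ((1, j, 0), (1, j, 1)),
    ((1, j, 1), (1, j, 2)), ((1, j, 2), (1, j, 0))]

/-- all arcs of a clause -/
def cls (K j a b c : ℕ) : Dg :=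
  ((List.range K).flatMap fun h => hubD h j a b c) ++ tri j a b c

/-- the digraph of a formula -/
def red (K : ℕ) (φ : N3) : Dg :=
  hubhub K ++ (List.range φ.length).flatMap fun j =>
    cls K j (tr φ j).1 (tr φ j).2.1 (tr φ j).2.2

theorem mem_red (K : ℕ) (φ : N3) (e : Vx × Vx) : e ∈ red K φ ↔
    (∃ h < K, ∃ h' < h, e = ((2, h, 0), (2, h', 0)) ∨ e = ((2, h', 0), (2, h, 0))) ∨
    (∃ j < φ.length, (∃ h < K, ∃ v ∈ ver j (tr φ j).1 (tr φ j).2.1 (tr φ j).2.2,
      e = ((2, h, 0), v) ∨ e = (v, (2, h, 0))) ∨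
      e ∈ tri j (tr φ j).1 (tr φ j).2.1 (tr φ j).2.2) := by
  unfold red hubhub cls hubD
  simp only [List.mem_append, List.mem_flatMap, List.mem_range, List.mem_cons, List.not_mem_nil,
    or_false]

/-! ### the forward direction -/

/-- variable at a position -/
def vr (φ : N3) (j i : ℕ) : ℕ := if i = 0 then (tr φ j).1 else if i = 1 then (tr φ j).2.1
  else (tr φ j).2.2

/-- the colouring -/
def colr (φ : N3) (τ : ℕ → Bool) (v : Vx) : ℕ :=
  if v.1 = 0 then (if τ v.2.1 then 1 else 0)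
  else if v.1 = 1 then (if τ (vr φ v.2.1 v.2.2) then 0 else 1)
  else v.2.1 + 2

theorem fwd_arcs (K : ℕ) (φ : N3) (τ : ℕ → Bool) (a b : Vx) (hab : (a, b) ∈ red K φ) : colr φ τ a < K + 2 ∧ colr φ τ b < K + 2 ∧
      (colr φ τ a ≠ colr φ τ b ∨ ∃ j < φ.length, ∃ i < 3, a = (1, j, i) ∧
        b = (1, j, (i + 1) % 3)) := by
  rw [mem_red] at hab
  rcases hab with ⟨h, hh, h', hh', h1 | h1⟩ | ⟨j, hj, ⟨h, hh, v, hv, h1 | h1⟩ | h1⟩
  · obtain ⟨rfl, rfl⟩ := Prod.mk.injEq _ _ _ _ ▸ h1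
    simp only [colr]
    refine ⟨by simp; omega, by simp; omega, Or.inl (by simp; omega)⟩
  · obtain ⟨rfl, rfl⟩ := Prod.mk.injEq _ _ _ _ ▸ h1
    simp only [colr]
    refine ⟨by simp; omega, by simp; omega, Or.inl (by simp; omega)⟩
  · obtain ⟨rfl, rfl⟩ := Prod.mk.injEq _ _ _ _ ▸ h1
    have h2 : colr φ τ b < 2 := by
      unfold ver at hv
      simp only [List.mem_cons, List.not_mem_nil, or_false] at hv
      rcases hv with rfl | rfl | rfl | rfl | rfl | rfl <;> simp only [colr] <;> simp <;>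
        split_ifs <;> omega
    have h3 : colr φ τ (2, h, 0) = h + 2 := by simp [colr]
    rw [h3]
    exact ⟨by omega, by omega, Or.inl (by omega)⟩
  · obtain ⟨rfl, rfl⟩ := Prod.mk.injEq _ _ _ _ ▸ h1
    have h2 : colr φ τ a < 2 := by
      unfold ver at hv
      simp only [List.mem_cons, List.not_mem_nil, or_false] at hv
      rcases hv with rfl | rfl | rfl | rfl | rfl | rfl <;> simp only [colr] <;> simp <;>
        split_ifs <;> omega
    have h3 : colr φ τ (2, h, 0) = h + 2 := by simp [colr]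
    rw [h3]
    exact ⟨by omega, by omega, Or.inl (by omega)⟩
  · unfold tri at h1
    simp only [List.mem_cons, List.not_mem_nil, or_false, Prod.mk.injEq] at h1
    have c0 : colr φ τ (1, j, 0) = if τ (tr φ j).1 then 0 else 1 := by simp [colr, vr]
    have c1 : colr φ τ (1, j, 1) = if τ (tr φ j).2.1 then 0 else 1 := by simp [colr, vr]
    have c2 : colr φ τ (1, j, 2) = if τ (tr φ j).2.2 then 0 else 1 := by simp [colr, vr]
    have d0 : ∀ x, colr φ τ (0, x, 0) = if τ x then 1 else 0 := by intro x; simp [colr]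
    rcases h1 with ⟨rfl, rfl⟩ | ⟨rfl, rfl⟩ | ⟨rfl, rfl⟩ | ⟨rfl, rfl⟩ | ⟨rfl, rfl⟩ | ⟨rfl, rfl⟩ |
      ⟨rfl, rfl⟩ | ⟨rfl, rfl⟩ | ⟨rfl, rfl⟩
    · rw [d0, c0]; cases τ (tr φ j).1 <;> simp
    · rw [d0, c0]; cases τ (tr φ j).1 <;> simp
    · rw [d0, c1]; cases τ (tr φ j).2.1 <;> simp
    · rw [d0, c1]; cases τ (tr φ j).2.1 <;> simp
    · rw [d0, c2]; cases τ (tr φ j).2.2 <;> simp
    · rw [d0, c2]; cases τ (tr φ j).2.2 <;> simp
    · refine ⟨?_, ?_, Or.inr ⟨j, hj, 0, by norm_num, rfl, rfl⟩⟩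
      · rw [c0]; split_ifs <;> omega
      · rw [c1]; split_ifs <;> omega
    · refine ⟨?_, ?_, Or.inr ⟨j, hj, 1, by norm_num, rfl, rfl⟩⟩
      · rw [c1]; split_ifs <;> omega
      · rw [c2]; split_ifs <;> omega
    · refine ⟨?_, ?_, Or.inr ⟨j, hj, 2, by norm_num, rfl, rfl⟩⟩
      · rw [c2]; split_ifs <;> omega
      · rw [c0]; split_ifs <;> omega

theorem fwd (K : ℕ) (φ : N3) (h : NAE3 φ) :
    Loopless (red K φ) ∧ starNum (red K φ) ≤ ((K + 2 : ℕ) : ℝ) := by
  obtain ⟨τ, hτ⟩ := (nae3_iff φ).1 h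
  refine ⟨?_, ?_⟩
  · rintro ⟨a, b⟩ he hab
    have hab' : a = b := hab
    subst hab'
    rcases (fwd_arcs K φ τ a a he).2.2 with h1 | ⟨j, -, i, hi, h2, h3⟩
    · exact h1 rfl
    · rw [h2] at h3
      simp only [Prod.mk.injEq, true_and] at h3
      omega
  · apply csInf_le
    · refine ⟨0, ?_⟩
      rintro x ⟨k, d, -, -, rfl, -⟩
      positivity
    · refine ⟨K + 2, 1, le_rfl, by omega, by simp, fun v => (colr φ τ v : ZMod (K + 2)), ?_⟩
      intro i v hv
      obtain ⟨w, ⟨e1, ⟨t1, ht1, m1⟩, ⟨t2, ht2, m2⟩⟩, hw⟩ := Relation.TransGen.head'_iff.1 hv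
      have hww := Relation.TransGen.trans_right hw hv
      obtain ⟨x, ⟨e2, ⟨t3, ht3, m3⟩, ⟨t4, ht4, m4⟩⟩, -⟩ := Relation.TransGen.head'_iff.1 hww
      have z1 : t1 = 0 := by omega
      have z2 : t2 = 0 := by omega
      have z4 : t4 = 0 := by omega
      rw [z1] at m1
      rw [z2] at m2
      rw [z4] at m4
      obtain ⟨b1, b2, b3⟩ := fwd_arcs K φ τ v w e1
      obtain ⟨b4, b5, b6⟩ := fwd_arcs K φ τ w x e2
      have q1 : colr φ τ v = colr φ τ w := by
        have := m1.trans m2.symm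
        rwa [ZMod.natCast_eq_natCast_iff', Nat.mod_eq_of_lt b1, Nat.mod_eq_of_lt b2] at this
      have q2 : colr φ τ w = colr φ τ x := by
        have := m2.trans m4.symm
        rwa [ZMod.natCast_eq_natCast_iff', Nat.mod_eq_of_lt b2, Nat.mod_eq_of_lt b5] at this
      rcases b3 with h1 | ⟨j, hj, s, hs, r1, r2⟩
      · exact h1 q1
      rcases b6 with h1 | ⟨j', hj', s', hs', r3, r4⟩
      · exact h1 q2
      have r5 := r2.symm.trans r3
      simp only [Prod.mk.injEq, true_and] at r5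
      obtain ⟨rfl, rfl⟩ := r5
      rw [r1, r2] at q1
      rw [r3, r4] at q2
      have c0 : colr φ τ (1, j, 0) = if τ (tr φ j).1 then 0 else 1 := by simp [colr, vr]
      have c1 : colr φ τ (1, j, 1) = if τ (tr φ j).2.1 then 0 else 1 := by simp [colr, vr]
      have c2 : colr φ τ (1, j, 2) = if τ (tr φ j).2.2 then 0 else 1 := by simp [colr, vr]
      have hne := hτ j hj
      apply hne
      interval_cases s
      · norm_num at q1 q2
        rw [c0, c1] at q1
        rw [c1, c2] at q2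
        revert q1 q2
        cases τ (tr φ j).1 <;> cases τ (tr φ j).2.1 <;> cases τ (tr φ j).2.2 <;> simp
      · norm_num at q1 q2
        rw [c1, c2] at q1
        rw [c2, c0] at q2
        revert q1 q2
        cases τ (tr φ j).1 <;> cases τ (tr φ j).2.1 <;> cases τ (tr φ j).2.2 <;> simp
      · norm_num at q1 q2
        rw [c2, c0] at q1
        rw [c0, c1] at q2
        revert q1 q2
        cases τ (tr φ j).1 <;> cases τ (tr φ j).2.1 <;> cases τ (tr φ j).2.2 <;> simp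

/-! ### the backward direction -/

theorem bwd (K : ℕ) (hK : 1 ≤ K) (φ : N3) (hl : Loopless (red K φ))
    (hs : starNum (red K φ) < ((K + 3 : ℕ) : ℝ)) : NAE3 φ := by
  obtain ⟨k, d, hd, hdk, hkd, c, hc⟩ := inf (red K φ) hl _ hs
  have hkd' : k < (K + 3) * d := by exact_mod_cast hkd
  have hk : 0 < k := by omega
  have : NeZero k := ⟨by omega⟩
  -- membership
  have mhh : ∀ h < K, ∀ h' < h, ((2, h, 0), (2, h', 0)) ∈ red K φ ∧
      ((2, h', 0), (2, h, 0)) ∈ red K φ := fun h hh h' hh' =>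
    ⟨(mem_red K φ _).2 (Or.inl ⟨h, hh, h', hh', Or.inl rfl⟩),
      (mem_red K φ _).2 (Or.inl ⟨h, hh, h', hh', Or.inr rfl⟩)⟩
  have mhd : ∀ j < φ.length, ∀ h < K, ∀ v ∈ ver j (tr φ j).1 (tr φ j).2.1 (tr φ j).2.2,
      ((2, h, 0), v) ∈ red K φ ∧ (v, (2, h, 0)) ∈ red K φ := fun j hj h hh v hv =>
    ⟨(mem_red K φ _).2 (Or.inr ⟨j, hj, Or.inl ⟨h, hh, v, hv, Or.inl rfl⟩⟩),
      (mem_red K φ _).2 (Or.inr ⟨j, hj, Or.inl ⟨h, hh, v, hv, Or.inr rfl⟩⟩)⟩
  have mtr : ∀ j < φ.length, ∀ e ∈ tri j (tr φ j).1 (tr φ j).2.1 (tr φ j).2.2, e ∈ red K φ :=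
    fun j hj e he => (mem_red K φ _).2 (Or.inr ⟨j, hj, Or.inr he⟩)
  -- digons
  have dig : ∀ u v, (u, v) ∈ red K φ → (v, u) ∈ red K φ → ∀ i : ZMod k,
      (∃ t : ℕ, t < d ∧ c u = i + (t : ZMod k)) → (∃ t : ℕ, t < d ∧ c v = i + (t : ZMod k)) →
      False := by
    intro u v h1 h2 i h3 h4
    exact hc i u ((Relation.TransGen.single ⟨h1, h3, h4⟩).tail ⟨h2, h4, h3⟩)
  set c0 := c (2, 0, 0) with hc0
  set C : Vx → ℕ := fun v => (c v - c0).val with hC
  have hCk : ∀ v, C v < k := fun v => ZMod.val_lt _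
  have hcC : ∀ v, c v = c0 + (C v : ZMod k) := by
    intro v
    rw [hC]
    simp only
    rw [ZMod.natCast_zmod_val]
    ring
  have hC0 : C (2, 0, 0) = 0 := by
    rw [hC]
    simp only
    rw [← hc0, sub_self, ZMod.val_zero]
  have cla : ∀ v l, C v / d = l → ∃ t : ℕ, t < d ∧ c v = (c0 + ((l * d : ℕ) : ZMod k)) + (t : ZMod k) := by
    intro v l hv
    refine ⟨C v % d, Nat.mod_lt _ (by omega), ?_⟩
    rw [hcC v]
    have h1 := Nat.div_add_mod (C v) d
    rw [hv] at h1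
    have h2 : ((C v : ℕ) : ZMod k) = ((d * l + C v % d : ℕ) : ZMod k) := by rw [h1]
    rw [h2]
    push_cast
    ring
  have dig2 : ∀ u v, (u, v) ∈ red K φ → (v, u) ∈ red K φ → C u / d ≠ C v / d := by
    intro u v h1 h2 h3
    exact dig u v h1 h2 _ (cla u _ rfl) (cla v _ h3.symm)
  have rng : ∀ v, ((2, 0, 0), v) ∈ red K φ → (v, (2, 0, 0)) ∈ red K φ →
      C v / d ∈ Finset.Icc 1 (K + 1) := by
    intro v h1 h2
    have h3 := dig2 _ _ h1 h2
    rw [hC0, Nat.zero_div] at h3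
    have h4 : C v + d ≤ k := by
      by_contra hcon
      push Not at hcon
      refine dig _ _ h1 h2 (c v) ⟨k - C v, by have := hCk v; omega, ?_⟩ ⟨0, by omega, by simp⟩
      rw [hcC v, add_assoc, ← Nat.cast_add]
      have : C v + (k - C v) = k := by have := hCk v; omega
      rw [this, ZMod.natCast_self, add_zero]
    have h5 : C v / d < K + 2 := by
      rw [Nat.div_lt_iff_lt_mul (by omega)]
      have : (K + 3) * d = (K + 2) * d + d := by ring
      omega
    rw [Finset.mem_Icc]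
    exact ⟨Nat.pos_of_ne_zero (Ne.symm h3), Nat.le_of_lt_succ h5⟩
  -- the classes of the other hubs
  set H : Finset ℕ := (Finset.Ico 1 K).image (fun h => C (2, h, 0) / d) with hH
  have hHsub : H ⊆ Finset.Icc 1 (K + 1) := by
    intro l hlH
    rw [hH, Finset.mem_image] at hlH
    obtain ⟨h, hh, rfl⟩ := hlH
    rw [Finset.mem_Ico] at hh
    have := mhh h hh.2 0 (by omega)
    exact rng _ this.2 this.1
  have hHcard : H.card = K - 1 := by
    rw [hH, Finset.card_image_of_injOn, Nat.card_Ico]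
    intro h hh h' hh' he
    have hh1 := Finset.mem_Ico.1 (Finset.mem_coe.1 hh)
    have hh2 := Finset.mem_Ico.1 (Finset.mem_coe.1 hh')
    by_contra hne
    rcases Nat.lt_or_gt_of_ne hne with h1 | h1
    · have := mhh h' hh2.2 h h1
      exact dig2 _ _ this.2 this.1 he
    · have := mhh h hh1.2 h' h1
      exact dig2 _ _ this.1 this.2 he
  have hcard : (Finset.Icc 1 (K + 1) \ H).card = 2 := by
    rw [Finset.card_sdiff_of_subset hHsub, hHcard, Nat.card_Icc]
    omega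
  obtain ⟨α, β, hαβ, hR⟩ := Finset.card_eq_two.1 hcard
  have two : ∀ j < φ.length, ∀ v ∈ ver j (tr φ j).1 (tr φ j).2.1 (tr φ j).2.2,
      C v / d = α ∨ C v / d = β := by
    intro j hj v hv
    have h0 := mhd j hj 0 (by omega) v hv
    have h1 : C v / d ∈ Finset.Icc 1 (K + 1) \ H := by
      rw [Finset.mem_sdiff]
      refine ⟨rng _ h0.1 h0.2, ?_⟩
      rw [hH, Finset.mem_image]
      rintro ⟨h, hh, he⟩
      rw [Finset.mem_Ico] at hh
      have h2 := mhd j hj h hh.2 v hv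
      exact dig2 _ _ h2.1 h2.2 he
    rw [hR, Finset.mem_insert, Finset.mem_singleton] at h1
    exact h1
  rw [nae3_iff]
  refine ⟨fun a => decide (C (0, a, 0) / d = α), fun j hj => ?_⟩
  rintro ⟨e1, e2⟩
  have f1 : C (0, (tr φ j).1, 0) / d = α ↔ C (0, (tr φ j).2.1, 0) / d = α := by
    simpa using e1
  have f2 : C (0, (tr φ j).2.1, 0) / d = α ↔ C (0, (tr φ j).2.2, 0) / d = α := by
    simpa using e2
  have a1 := two j hj (0, (tr φ j).1, 0) (by simp [ver])
  have a2 := two j hj (0, (tr φ j).2.1, 0) (by simp [ver])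
  have a3 := two j hj (0, (tr φ j).2.2, 0) (by simp [ver])
  have b1 := two j hj (1, j, 0) (by simp [ver])
  have b2 := two j hj (1, j, 1) (by simp [ver])
  have b3 := two j hj (1, j, 2) (by simp [ver])
  have n1 := dig2 (0, (tr φ j).1, 0) (1, j, 0) (mtr j hj _ (by simp [tri]))
    (mtr j hj _ (by simp [tri]))
  have n2 := dig2 (0, (tr φ j).2.1, 0) (1, j, 1) (mtr j hj _ (by simp [tri]))
    (mtr j hj _ (by simp [tri]))
  have n3 := dig2 (0, (tr φ j).2.2, 0) (1, j, 2) (mtr j hj _ (by simp [tri]))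
    (mtr j hj _ (by simp [tri]))
  have g : C (1, j, 0) / d = C (1, j, 1) / d ∧ C (1, j, 1) / d = C (1, j, 2) / d := by
    omega
  have t0 := cla (1, j, 0) _ rfl
  have t1 := cla (1, j, 1) _ g.1.symm
  have t2 := cla (1, j, 2) _ (g.2.symm.trans g.1.symm)
  exact hc _ (1, j, 0) (((Relation.TransGen.single
    ⟨mtr j hj ((1, j, 0), (1, j, 1)) (by simp [tri]), t0, t1⟩).tail
    ⟨mtr j hj ((1, j, 1), (1, j, 2)) (by simp [tri]), t1, t2⟩).tail
    ⟨mtr j hj ((1, j, 2), (1, j, 0)) (by simp [tri]), t2, t0⟩)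

/-! ### the reduction is polynomial -/

theorem poly_red (K : ℕ) : NPC.Poly (red K) := by
  unfold red
  have hn : UPoly (fun φ : N3 => φ.length) := UPoly.length NPC.Poly.id
  refine NPC.Poly.append (NPC.Poly.const _) ?_
  refine NPC.Poly.flatMap (l := fun φ : N3 => List.range φ.length)
    (F := fun φ j => cls K j (tr φ j).1 (tr φ j).2.1 (tr φ j).2.2) hn.range ?_
  unfold cls
  refine NPC.Poly.append ?_ ?_
  · refine NPC.Poly.flatMap (l := fun _ : N3 × ℕ => List.range K)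
      (F := fun x h => hubD h x.2 (tr x.1 x.2).1 (tr x.1 x.2).2.1 (tr x.1 x.2).2.2)
      (NPC.Poly.const _) ?_
    unfold hubD ver
    refine NPC.Poly.flatMap (l := fun x : (N3 × ℕ) × ℕ => [(0, (tr x.1.1 x.1.2).1, 0),
      (0, (tr x.1.1 x.1.2).2.1, 0), (0, (tr x.1.1 x.1.2).2.2, 0), (1, x.1.2, 0), (1, x.1.2, 1),
      (1, x.1.2, 2)]) (F := fun x v => [((2, x.2, 0), v), (v, (2, x.2, 0))]) ?_ ?_
    · fun_prop
    · fun_prop
  · unfold tri
    fun_prop

theorem hi : SHI := by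
  intro p hp
  have hm : 3 ≤ ⌊p⌋₊ := Nat.le_floor (by exact_mod_cast hp)
  obtain ⟨K, hK⟩ : ∃ K, ⌊p⌋₊ = K + 2 := ⟨⌊p⌋₊ - 2, by omega⟩
  have hK1 : 1 ≤ K := by omega
  have h1 : ((K + 2 : ℕ) : ℝ) ≤ p := by
    rw [← hK]; exact Nat.floor_le (by linarith)
  have h2 : p < ((K + 3 : ℕ) : ℝ) := by
    have := Nat.lt_floor_add_one p
    rw [hK] at this
    push_cast at this ⊢
    linarith
  refine NPHardP.of_poly (hardPr_NAE3.toHardI.toNPHardP) (poly_red K) fun φ => ⟨fun h => ?_,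
    fun h => ?_⟩
  · obtain ⟨h3, h4⟩ := fwd K φ h
    exact ⟨h3, h4.trans h1⟩
  · exact bwd K hK1 φ h.1 (lt_of_le_of_lt h.2 h2)

end Pool.Agent.R141.SD
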