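import Pool.Agent.R539.SD.Defs

/-!
# MP_77e9aa_lc: pieces SHIT, SCOL, SINF
-/

set_option autoImplicit false

namespace Pool.Agent.R141.SD

open Pool.Agent.R539.SD

theorem hit : SHIT := by
  intro E k d c hd hdk hcol Y v hv y hy
  have hk : 0 < k := by omega
  have : NeZero k := ⟨by omega⟩
  by_contra hcon
  push Not at hcon
  have hX : ∀ u ∈ Y, ∃ t : ℕ, t < d ∧ c u = ((y : ZMod k) - d) + (t : ZMod k) := by
    intro u hu
    have h1 := hcon u hu
    unfold W at h1
    push Not at h1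
    obtain ⟨h2, h3⟩ := h1
    have ha := (c u).val_lt
    have hc : c u = (((c u).val : ℕ) : ZMod k) := (ZMod.natCast_zmod_val _).symm
    set a := (c u).val with hadef
    rcases Nat.lt_or_ge a y with h4 | h4
    · refine ⟨a + d - y, by omega, ?_⟩
      have h5 : a + d - y + y = a + d := by omega
      have h6 : ((a + d - y : ℕ) : ZMod k) + y = a + d := by exact_mod_cast congrArg (Nat.cast (R := ZMod k)) h5
      rw [hc]
      linear_combination -h6
    · have h5 := h2 h4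
      refine ⟨a - (y + (k - d)), by omega, ?_⟩
      have h6 : a - (y + (k - d)) + y + k = a + d := by omega
      have h7 : ((a - (y + (k - d)) : ℕ) : ZMod k) + y + k = a + d := by
        exact_mod_cast congrArg (Nat.cast (R := ZMod k)) h6
      rw [ZMod.natCast_self, add_zero] at h7
      rw [hc]
      linear_combination -h7
  exact hcol ((y : ZMod k) - d) v (Relation.TransGen.mono
    (fun a b h => ⟨h.1, hX a h.2.1, hX b h.2.2⟩) v v hv)

theorem col : SCOL := by
  intro E k d C hd hdk hC hcyc i v hv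
  have hk : 0 < k := by omega
  have : NeZero k := ⟨by omega⟩
  set R : Vx → Vx → Prop := fun a b => (a, b) ∈ E ∧
    a ∈ {v : Vx | ∃ t : ℕ, t < d ∧ (C v : ZMod k) = i + (t : ZMod k)} ∧
    b ∈ {v : Vx | ∃ t : ℕ, t < d ∧ (C v : ZMod k) = i + (t : ZMod k)} with hR
  have hY : Cyc E {u | Relation.TransGen R v u ∧ Relation.TransGen R u v} := by
    refine ⟨⟨v, hv, hv⟩, ?_, ?_⟩
    · rintro u ⟨h1, h2⟩
      obtain ⟨w, h3, h4⟩ := Relation.TransGen.head'_iff.1 h2
      exact ⟨w, ⟨h1.tail h3, Relation.TransGen.trans_right h4 hv⟩, h3.1⟩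
    · rintro u ⟨h1, h2⟩
      obtain ⟨w, h3, h4⟩ := Relation.TransGen.tail'_iff.1 h1
      exact ⟨w, ⟨Relation.TransGen.trans_left hv h3, Relation.TransGen.head h4 h2⟩, h4.1⟩
  obtain ⟨u, ⟨-, hu⟩, hW⟩ := hcyc _ hY ((i + d : ZMod k).val) (ZMod.val_lt _)
  obtain ⟨w, h3, -⟩ := Relation.TransGen.head'_iff.1 hu
  obtain ⟨t, ht, hut⟩ := h3.2.1
  have hy := (ZMod.natCast_zmod_val (i + d : ZMod k))
  have hylt := (i + d : ZMod k).val_lt
  set y := (i + d : ZMod k).val with hydef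
  have h4 : ((C u + d : ℕ) : ZMod k) = ((y + t : ℕ) : ZMod k) := by
    push_cast
    rw [hy, hut]
    ring
  rw [ZMod.natCast_eq_natCast_iff, Nat.modEq_iff_dvd] at h4
  have hCu := hC u
  unfold W at hW
  have h5 : ((y + t : ℕ) : ℤ) - ((C u + d : ℕ) : ℤ) = 0 := by
    apply Int.eq_zero_of_abs_lt_dvd h4
    rw [abs_lt]
    omega
  omega

theorem inf : SINF := by
  intro E hE q hq
  have hne : {x : ℝ | ∃ k d : ℕ, 1 ≤ d ∧ d ≤ k ∧ x = (k : ℝ) / (d : ℝ) ∧
      ∃ c : Vx → ZMod k, IsCol E k d c}.Nonempty := by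
    set M : ℕ := (E.map fun e => Encodable.encode e.1 + Encodable.encode e.2).sum with hM
    have hMle : ∀ e ∈ E, Encodable.encode e.1 + Encodable.encode e.2 ≤ M := by
      intro e he
      exact List.le_sum_of_mem (List.mem_map_of_mem he)
    refine ⟨((M + 1 : ℕ) : ℝ) / ((1 : ℕ) : ℝ), M + 1, 1, le_rfl, by omega, rfl,
      fun v => ((Encodable.encode v : ℕ) : ZMod (M + 1)), ?_⟩
    intro i v hv
    obtain ⟨w, ⟨h1, ⟨t, ht, h2⟩, ⟨t', ht', h3⟩⟩, -⟩ := Relation.TransGen.head'_iff.1 hv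
    have ht0 : t = 0 := by omega
    have ht0' : t' = 0 := by omega
    rw [ht0] at h2
    rw [ht0'] at h3
    have h4 : ((Encodable.encode v : ℕ) : ZMod (M + 1)) = ((Encodable.encode w : ℕ) : ZMod (M + 1)) :=
      h2.trans h3.symm
    rw [ZMod.natCast_eq_natCast_iff'] at h4
    have h5 := hMle _ h1
    simp only at h5
    rw [Nat.mod_eq_of_lt (by omega), Nat.mod_eq_of_lt (by omega)] at h4
    exact hE _ h1 (Encodable.encode_injective h4)
  obtain ⟨x, ⟨k, d, hd, hdk, hx, hc⟩, hxq⟩ := exists_lt_of_csInf_lt hne hq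
  refine ⟨k, d, hd, hdk, ?_, hc⟩
  rw [hx, div_lt_iff₀ (by exact_mod_cast (by omega : 0 < d))] at hxq
  exact hxq

end Pool.Agent.R141.SD
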